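import Mathlib

set_option autoImplicit false

open Filter Topology

namespace Pool.Agent.Results.MP_54d8ad_lc.EUModular

/-- `h` is an Erdős–Ulam weight: nonnegative values, divergent sum, and
`h n / ∑_{i ≤ n} h i → 0`. -/
structure IsEUWeight (h : ℕ → ℝ) : Prop where
  nonneg : ∀ i, 0 ≤ h i
  diverges : Tendsto (fun n => ∑ i ∈ Finset.range n, h i) atTop atTop
  small : Tendsto (fun n => h n / ∑ i ∈ Finset.range (n + 1), h i) atTop (𝓝 0)

/-- The Erdős–Ulam ideal `EU_h`. -/
def EU (h : ℕ → ℝ) : Set (Set ℕ) :=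
  {A | Tendsto (fun n => (∑ i ∈ Finset.range n, A.indicator h i) / ∑ i ∈ Finset.range n, h i)
    atTop (𝓝 0)}

/-- The class `H`: nondecreasing `g : ω → ω` with `g n → ∞` and `n / g n` not tending to `0`. -/
structure InH (g : ℕ → ℕ) : Prop where
  mono : Monotone g
  unbounded : Tendsto g atTop atTop
  ratio : ¬ Tendsto (fun n : ℕ => (n : ℝ) / (g n : ℝ)) atTop (𝓝 0)

/-- The simple density ideal `Z_g`. -/
def SimpleDensity (g : ℕ → ℕ) : Set (Set ℕ) :=
  {A | Tendsto (fun n : ℕ => ((A ∩ Set.Iio n).ncard : ℝ) / (g n : ℝ)) atTop (𝓝 0)}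

/-- Modulus functions `f : [0,∞) → [0,∞)`. -/
structure IsModulus (f : NNReal → NNReal) : Prop where
  eq_zero_iff : ∀ x, f x = 0 ↔ x = 0
  subadd : ∀ x y, f (x + y) ≤ f x + f y
  increasing : Monotone f
  right_cont : ContinuousWithinAt f (Set.Ioi 0) 0

/-- The ideal `Z_g(f)`. -/
def ModularDensity (g : ℕ → ℕ) (f : NNReal → NNReal) : Set (Set ℕ) :=
  {A | Tendsto (fun n : ℕ => (f ((A ∩ Set.Iio n).ncard : NNReal) : ℝ) / (f (g n : NNReal) : ℝ))
    atTop (𝓝 0)}

/-! ### Auxiliary facts -/

/-- partial sums -/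
noncomputable def S (h : ℕ → ℝ) (n : ℕ) : ℝ := ∑ i ∈ Finset.range n, h i

/-- running maximum -/
noncomputable def M (h : ℕ → ℝ) : ℕ → ℝ
  | 0 => 0
  | n + 1 => max (M h n) (h n)

lemma S_succ (h : ℕ → ℝ) (n : ℕ) : S h (n + 1) = S h n + h n := by
  simp [S, Finset.sum_range_succ]

lemma S_mono {h : ℕ → ℝ} (hn : ∀ i, 0 ≤ h i) : Monotone (S h) := by
  apply monotone_nat_of_le_succ
  intro n
  rw [S_succ]
  linarith [hn n]

lemma S_nonneg {h : ℕ → ℝ} (hn : ∀ i, 0 ≤ h i) (n : ℕ) : 0 ≤ S h n :=
  Finset.sum_nonneg (fun i _ => hn i)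

lemma M_mono (h : ℕ → ℝ) : Monotone (M h) := by
  apply monotone_nat_of_le_succ
  intro n
  simp [M]

lemma M_nonneg (h : ℕ → ℝ) (n : ℕ) : 0 ≤ M h n := by
  have := M_mono h (Nat.zero_le n)
  simpa [M] using this

/-- `M n / S n → 0`, in the form we use. -/
lemma M_small {h : ℕ → ℝ} (hh : IsEUWeight h) (ε : ℝ) (hε : 0 < ε) :
    ∀ᶠ m in atTop, M h m ≤ ε * S h m := by
  have h1 : ∀ᶠ n in atTop, h n ≤ ε * S h (n + 1) := by
    have h2 := (hh.small.eventually (gt_mem_nhds hε))
    have h3 : ∀ᶠ n in atTop, 0 < S h (n + 1) := by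
      have := (hh.diverges.comp (tendsto_add_atTop_nat 1)).eventually (eventually_gt_atTop 0)
      filter_upwards [this] with n hn
      exact hn
    filter_upwards [h2, h3] with n hn2 hn3
    have : h n / S h (n + 1) < ε := hn2
    rw [div_lt_iff₀ hn3] at this
    exact this.le
  obtain ⟨N, hN⟩ := eventually_atTop.1 h1
  have key : ∀ m, N ≤ m → M h m ≤ max (M h N) (ε * S h m) := by
    intro m hm
    induction m, hm using Nat.le_induction with
    | base => exact le_max_left _ _
    | succ m hm ih =>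
      have hS : ε * S h m ≤ ε * S h (m + 1) :=
        mul_le_mul_of_nonneg_left (S_mono hh.nonneg (Nat.le_succ m)) hε.le
      simp only [M]
      apply max_le
      · exact ih.trans (max_le_max le_rfl hS)
      · exact (hN m hm).trans (le_max_right _ _)
  have h4 : ∀ᶠ m in atTop, M h N ≤ ε * S h m := by
    have := hh.diverges.eventually (eventually_ge_atTop (M h N / ε))
    filter_upwards [this] with m hm
    have hm' : M h N / ε ≤ S h m := hm
    rw [div_le_iff₀ hε] at hm'
    linarith
  filter_upwards [h4, eventually_ge_atTop N] with m hm1 hm2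
  exact (key m hm2).trans (max_le hm1 le_rfl)

/-- Balanced colouring (greedy). -/
lemma greedy {h : ℕ → ℝ} (hn : ∀ i, 0 ≤ h i) (k : ℕ) :
    ∃ c : ℕ → Fin (k + 1), ∀ (m : ℕ) (i : Fin (k + 1)),
      ∑ j ∈ Finset.range m, (if c j = i then h j else 0) ≤ S h m / (k + 1) + M h m := by
  classical
  have hpick : ∀ L : Fin (k + 1) → ℝ, ∃ i, ∀ j, L i ≤ L j := by
    intro L
    obtain ⟨i, -, hi⟩ := Finset.exists_min_image (Finset.univ : Finset (Fin (k + 1))) L
      ⟨0, Finset.mem_univ _⟩
    exact ⟨i, fun j => hi j (Finset.mem_univ _)⟩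
  choose pick hpick using hpick
  let load : ℕ → (Fin (k + 1) → ℝ) := fun m =>
    Nat.rec (fun _ => 0) (fun m L => fun i => L i + (if pick L = i then h m else 0)) m
  have load0 : ∀ i, load 0 i = 0 := fun i => rfl
  have loadS : ∀ m i, load (m + 1) i = load m i + (if pick (load m) = i then h m else 0) :=
    fun m i => rfl
  refine ⟨fun m => pick (load m), ?_⟩
  have hload : ∀ m i, load m i = ∑ j ∈ Finset.range m, (if pick (load j) = i then h j else 0) := by
    intro m i
    induction m with
    | zero => simp [load0]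
    | succ m ih => rw [loadS, Finset.sum_range_succ, ih]
  have hsum : ∀ m, ∑ i, load m i = S h m := by
    intro m
    induction m with
    | zero => simp [load0, S]
    | succ m ih =>
      simp only [loadS, Finset.sum_add_distrib, ih, S_succ]
      simp
  have hbound : ∀ m i, load m i ≤ S h m / (k + 1) + M h m := by
    intro m
    induction m with
    | zero => intro i; simp [load0, S, M]
    | succ m ih =>
      intro i
      have hSm : S h m / (k + 1) ≤ S h (m + 1) / (k + 1) := by
        apply div_le_div_of_nonneg_right (S_mono hn (Nat.le_succ m)) (by positivity)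
      rw [loadS]
      by_cases hi : pick (load m) = i
      · rw [if_pos hi]
        have hmin : load m i ≤ S h m / (k + 1) := by
          have h1 : ∑ _j : Fin (k + 1), load m i ≤ ∑ j, load m j := by
            apply Finset.sum_le_sum
            intro j _
            rw [← hi]
            exact hpick (load m) j
          rw [hsum] at h1
          simp only [Finset.sum_const, Finset.card_univ, Fintype.card_fin, nsmul_eq_mul] at h1
          rw [le_div_iff₀ (by positivity)]
          push_cast at h1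
          linarith
        have : h m ≤ M h (m + 1) := by simp [M]
        linarith
      · rw [if_neg hi, add_zero]
        have := ih i
        have h2 : M h m ≤ M h (m + 1) := M_mono h (Nat.le_succ m)
        linarith
  intro m i
  rw [← hload]
  exact hbound m i

lemma ncard_eq (A : Set ℕ) (n : ℕ) [DecidablePred (· ∈ A)] :
    (A ∩ Set.Iio n).ncard = ((Finset.range n).filter (· ∈ A)).card := by
  rw [← Set.ncard_coe_finset]
  congr 1
  ext x
  simp [and_comm]

lemma ncard_le (A : Set ℕ) (n : ℕ) : (A ∩ Set.Iio n).ncard ≤ n := by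
  classical
  rw [ncard_eq]
  exact (Finset.card_filter_le _ _).trans (by simp)

section modulus

variable {f : NNReal → NNReal}

lemma f_nsmul (hf : IsModulus f) (n : ℕ) (x : NNReal) : f (n * x) ≤ n * f x := by
  induction n with
  | zero => simp [(hf.eq_zero_iff 0).2 rfl]
  | succ n ih =>
    have := hf.subadd (n * x) x
    push_cast
    rw [add_mul, add_mul, one_mul, one_mul]
    exact this.trans (add_le_add ih le_rfl)

/-- If `0 < x ≤ y` then `f y * x ≤ 2 * y * f x`. -/
lemma f_ratio (hf : IsModulus f) {x y : NNReal} (hx : 0 < x) (hxy : x ≤ y) :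
    f y * x ≤ 2 * y * f x := by
  obtain ⟨n, hn1, hn2⟩ : ∃ n : ℕ, y ≤ n * x ∧ (n : NNReal) * x ≤ 2 * y := by
    refine ⟨⌈y / x⌉₊, ?_, ?_⟩
    · have := Nat.le_ceil (y / x)
      rwa [div_le_iff₀ hx] at this
    · have h1 : ((⌈y / x⌉₊ : ℕ) : NNReal) ≤ y / x + 1 := (Nat.ceil_lt_add_one (bot_le)).le
      calc ((⌈y / x⌉₊ : ℕ) : NNReal) * x ≤ (y / x + 1) * x := by gcongr
        _ = y + x := by rw [add_mul, div_mul_cancel₀ _ hx.ne', one_mul]
        _ ≤ y + y := by gcongr
        _ = 2 * y := by ring
  calc f y * x ≤ f (n * x) * x := by gcongr; exact hf.increasing hn1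
    _ ≤ (n * f x) * x := by gcongr; exact f_nsmul hf n x
    _ = (n * x) * f x := by ring
    _ ≤ 2 * y * f x := by gcongr

end modulus

/-- Key step: if `EU_h = Z_g(f)` then for each `δ > 0` there is `K` with
`f (n / K) ≤ δ f (g n)` for all large `n`. -/
lemma key {h : ℕ → ℝ} (hh : IsEUWeight h) {g : ℕ → ℕ} {f : NNReal → NNReal}
    (hf : IsModulus f) (hfg : ∀ᶠ n in atTop, 0 < f (g n))
    (hsub : EU h ⊆ ModularDensity g f) (δ : ℝ) (hδ : 0 < δ) :
    ∃ K : ℕ, 0 < K ∧ ∀ᶠ n : ℕ in atTop, (f ((n : NNReal) / K) : ℝ) ≤ δ * f (g n) := by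
  classical
  by_contra hcon
  push Not at hcon
  -- the sequence of scales
  have step : ∀ (k n : ℕ), ∃ n' : ℕ, n < n' ∧ 2 * n ≤ n' ∧ (k + 1) * S h n ≤ S h n' ∧
      δ * f (g n') < f ((n' : NNReal) / (k + 1 : ℕ)) ∧ 0 < f (g n') := by
    intro k n
    have h1 := hcon (k + 1) (Nat.succ_pos k)
    have h2 : ∀ᶠ n' : ℕ in atTop, (k + 1) * S h n ≤ S h n' :=
      hh.diverges.eventually (eventually_ge_atTop _)
    have h3 := (h1.and_eventually ((eventually_gt_atTop n).and
      ((eventually_ge_atTop (2 * n)).and (h2.and hfg)))).exists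
    obtain ⟨n', hn1, hn2, hn3, hn4, hn5⟩ := h3
    exact ⟨n', hn2, hn3, hn4, by simpa using hn1, hn5⟩
  choose F hF1 hF2 hF3 hF4 hF5 using step
  let u : ℕ → ℕ := fun k => Nat.rec 0 (fun k n => F k n) k
  have uS : ∀ k, u (k + 1) = F k (u k) := fun k => rfl
  have u0 : u 0 = 0 := rfl
  have ulu : ∀ k, u k < u (k + 1) := fun k => by rw [uS]; exact hF1 k (u k)
  have umono : StrictMono u := strictMono_nat_of_lt_succ ulu
  choose c hc using fun k => greedy hh.nonneg k
  -- most popular colour in the block `[u k, u (k+1))`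
  have hpop : ∀ k, ∃ i : Fin (k + 1),
      u (k + 1) - u k ≤ (k + 1) * ((Finset.Ico (u k) (u (k + 1))).filter (fun j => c k j = i)).card := by
    intro k
    by_contra hno
    push Not at hno
    have h1 : ∑ i : Fin (k + 1), ((Finset.Ico (u k) (u (k + 1))).filter (fun j => c k j = i)).card
        = u (k + 1) - u k := by
      rw [← Finset.card_eq_sum_card_fiberwise (f := c k) (t := Finset.univ)]
      · simp
      · intro x _; simp
    have h2 : ∑ i : Fin (k + 1), (k + 1) * ((Finset.Ico (u k) (u (k + 1))).filter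
        (fun j => c k j = i)).card < ∑ _i : Fin (k + 1), (u (k + 1) - u k) := by
      apply Finset.sum_lt_sum_of_nonempty ⟨0, Finset.mem_univ _⟩
      intro i _
      exact hno i
    rw [← Finset.mul_sum, h1] at h2
    simp at h2
  choose col hcol using hpop
  -- the set
  let A : Set ℕ := {j | ∃ k, u k ≤ j ∧ j < u (k + 1) ∧ c k j = col k}
  have hmass : ∀ k m, m ≤ u (k + 1) →
      ∑ i ∈ Finset.range m, A.indicator h i ≤
        ∑ i ∈ Finset.range (min m (u k)), A.indicator h i + (S h m / (k + 1) + M h m) := by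
    intro k m hm
    have hc' := hc k m (col k)
    refine le_trans ?_ (add_le_add le_rfl hc')
    rcases le_total m (u k) with hmk | hmk
    · rw [min_eq_left hmk]
      have : 0 ≤ ∑ j ∈ Finset.range m, (if c k j = col k then h j else 0) := by
        apply Finset.sum_nonneg
        intro j _
        split_ifs
        · exact hh.nonneg j
        · exact le_rfl
      linarith
    · rw [min_eq_right hmk]
      rw [← Finset.sum_range_add_sum_Ico _ hmk]
      apply add_le_add le_rfl
      calc ∑ i ∈ Finset.Ico (u k) m, A.indicator h i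
          ≤ ∑ j ∈ Finset.Ico (u k) m, (if c k j = col k then h j else 0) := by
            apply Finset.sum_le_sum
            intro j hj
            rw [Finset.mem_Ico] at hj
            by_cases hjA : j ∈ A
            · rw [Set.indicator_of_mem hjA]
              obtain ⟨k', hk1, hk2, hk3⟩ := hjA
              have hkk : k' = k := by
                have h1 : k' < k + 1 := umono.lt_iff_lt.1 (lt_of_le_of_lt hk1 (lt_of_lt_of_le hj.2 hm))
                have h2 : k < k' + 1 := umono.lt_iff_lt.1 (lt_of_le_of_lt hj.1 hk2)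
                omega
              subst hkk
              rw [if_pos hk3]
            · rw [Set.indicator_of_notMem hjA]
              split_ifs
              · exact hh.nonneg j
              · exact le_rfl
        _ ≤ ∑ j ∈ Finset.range m, (if c k j = col k then h j else 0) := by
            apply Finset.sum_le_sum_of_subset_of_nonneg
            · intro x hx
              simp only [Finset.mem_Ico, Finset.mem_range] at hx ⊢
              exact hx.2
            · intro j _ _
              split_ifs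
              · exact hh.nonneg j
              · exact le_rfl
  have hindle : ∀ m, ∑ i ∈ Finset.range m, A.indicator h i ≤ S h m := by
    intro m
    apply Finset.sum_le_sum
    intro i _
    apply Set.indicator_le_self' (fun _ _ => hh.nonneg _)
  have hSpos : ∀ᶠ m in atTop, 0 < S h m := hh.diverges.eventually (eventually_gt_atTop 0)
  have hA : A ∈ EU h := by
    show Tendsto _ _ _
    rw [Metric.tendsto_atTop]
    intro ε hε
    -- choose k0 with 3/(k0) small
    obtain ⟨k0, hk0⟩ := exists_nat_gt (8 / ε)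
    obtain ⟨N, hN⟩ := eventually_atTop.1 ((M_small hh (ε / 8) (by positivity)).and hSpos)
    refine ⟨max N (u (k0 + 2)), ?_⟩
    intro m hm
    have hmN : N ≤ m := le_trans (le_max_left _ _) hm
    have hmu : u (k0 + 2) ≤ m := le_trans (le_max_right _ _) hm
    obtain ⟨hMm, hSm⟩ := hN m hmN
    -- find the block of m
    obtain ⟨k, hk1, hk2⟩ : ∃ k, u k ≤ m ∧ m < u (k + 1) := by
      have hex : ∃ k, m < u (k + 1) := by
        refine ⟨m, ?_⟩
        have := umono.id_le (m + 1)
        simp only [id] at this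
        omega
      let k := Nat.find hex
      refine ⟨k, ?_, Nat.find_spec hex⟩
      rcases Nat.eq_zero_or_pos k with hk | hk
      · rw [hk, u0]; exact Nat.zero_le _
      · have := Nat.find_min hex (m := k - 1) (by omega)
        rw [Nat.sub_add_cancel hk] at this
        omega
    have hkk : k0 + 2 ≤ k := by
      have : k0 + 2 < k + 1 := umono.lt_iff_lt.1 (lt_of_le_of_lt hmu hk2)
      omega
    obtain ⟨p, rfl⟩ : ∃ p, k = p + 2 := ⟨k - 2, by omega⟩
    have h1 := hmass (p + 2) m hk2.le
    rw [min_eq_right hk1] at h1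
    have h2 := hmass (p + 1) (u (p + 2)) le_rfl
    rw [min_eq_right (umono.monotone (Nat.le_succ (p + 1)))] at h2
    have h3 := hindle (u (p + 1))
    have h4 : ((p : ℝ) + 1 + 1) * S h (u (p + 1)) ≤ S h (u (p + 2)) := by
      have := hF3 (p + 1) (u (p + 1))
      rw [← uS] at this
      push_cast at this
      exact this
    have h5 : S h (u (p + 2)) ≤ S h m := S_mono hh.nonneg hk1
    have h6 : M h (u (p + 2)) ≤ M h m := M_mono h hk1
    have hp : (8 / ε) < (p : ℝ) := by
      have : (k0 : ℝ) ≤ p := by exact_mod_cast (by omega : k0 ≤ p)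
      linarith
    have hp0 : (0 : ℝ) < p := lt_trans (by positivity) hp
    have hp8 : 8 < ε * p := by
      rw [div_lt_iff₀ hε] at hp
      linarith
    have h7 : S h (u (p + 1)) ≤ ε / 8 * S h m := by
      have hpos : (0 : ℝ) < (p : ℝ) + 1 + 1 := by linarith
      have h71 : S h (u (p + 1)) ≤ S h m / ((p : ℝ) + 1 + 1) := by
        rw [le_div_iff₀ hpos]; linarith
      have h72 : S h m / ((p : ℝ) + 1 + 1) ≤ ε / 8 * S h m := by
        rw [div_le_iff₀ hpos]
        nlinarith
      linarith
    have h8 : S h (u (p + 2)) / ((p + 1 : ℕ) + 1 : ℝ) ≤ ε / 8 * S h m := by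
      have hpos : (0 : ℝ) < ((p + 1 : ℕ) : ℝ) + 1 := by positivity
      rw [div_le_iff₀ hpos]
      push_cast
      nlinarith
    have h9 : S h m / ((p + 2 : ℕ) + 1 : ℝ) ≤ ε / 8 * S h m := by
      have hpos : (0 : ℝ) < ((p + 2 : ℕ) : ℝ) + 1 := by positivity
      rw [div_le_iff₀ hpos]
      push_cast
      nlinarith
    have htot : ∑ i ∈ Finset.range m, A.indicator h i ≤ 5 / 8 * ε * S h m := by
      linarith
    have hnonneg : 0 ≤ ∑ i ∈ Finset.range m, A.indicator h i := by
      apply Finset.sum_nonneg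
      intro i _
      exact Set.indicator_nonneg (fun _ _ => hh.nonneg _) _
    rw [Real.dist_eq, sub_zero]
    have hSm' : 0 < ∑ i ∈ Finset.range m, h i := hSm
    rw [abs_of_nonneg (div_nonneg hnonneg hSm'.le), div_lt_iff₀ hSm']
    have : S h m = ∑ i ∈ Finset.range m, h i := rfl
    rw [← this]
    nlinarith
  have hAm : A ∈ ModularDensity g f := hsub hA
  have hlim : Tendsto (fun n => (f ((A ∩ Set.Iio n).ncard : NNReal) : ℝ) / (f (g n : NNReal) : ℝ))
    atTop (𝓝 0) := hAm
  have hev := hlim.eventually (gt_mem_nhds (half_pos hδ))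
  obtain ⟨N, hN⟩ := eventually_atTop.1 hev
  -- contradiction at n = u (N+1)
  have hlarge := hN (u (N + 1)) (le_trans (by simpa using umono.id_le N) (umono.monotone (Nat.le_succ N)))
  have hgpos : 0 < f (g (u (N + 1))) := by rw [uS]; exact hF5 N (u N)
  have hgpos' : (0 : ℝ) < f (g (u (N + 1))) := by exact_mod_cast hgpos
  rw [div_lt_iff₀ hgpos'] at hlarge
  have hcard : u (N + 1) ≤ 2 * ((N + 1) * (A ∩ Set.Iio (u (N + 1))).ncard) := by
    have h1 := hcol N
    have h2 : ((Finset.Ico (u N) (u (N + 1))).filter (fun j => c N j = col N)).card ≤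
        (A ∩ Set.Iio (u (N + 1))).ncard := by
      have : DecidablePred (· ∈ A) := Classical.decPred _
      rw [ncard_eq]
      apply Finset.card_le_card
      intro x hx
      simp only [Finset.mem_filter, Finset.mem_Ico, Finset.mem_range] at hx ⊢
      exact ⟨hx.1.2, N, hx.1.1, hx.1.2, hx.2⟩
    have h3 : 2 * u N ≤ u (N + 1) := by rw [uS]; exact hF2 N (u N)
    have h4 : u (N + 1) - u N ≤ (N + 1) * (A ∩ Set.Iio (u (N + 1))).ncard :=
      h1.trans (Nat.mul_le_mul_left _ h2)
    omega
  have hbig : δ * f (g (u (N + 1))) < f ((u (N + 1) : NNReal) / (N + 1 : ℕ)) := by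
    rw [uS]; exact hF4 N (u N)
  have hle : f ((u (N + 1) : NNReal) / (N + 1 : ℕ)) ≤ 2 * f ((A ∩ Set.Iio (u (N + 1))).ncard : NNReal) := by
    have h1 : (u (N + 1) : NNReal) / (N + 1 : ℕ) ≤
        (2 : ℕ) * ((A ∩ Set.Iio (u (N + 1))).ncard : NNReal) := by
      rw [div_le_iff₀ (by positivity)]
      have : (u (N + 1) : NNReal) ≤ ((2 * ((N + 1) * (A ∩ Set.Iio (u (N + 1))).ncard) : ℕ) : NNReal) := by
        exact_mod_cast hcard
      refine this.trans (le_of_eq ?_)
      push_cast
      ring
    have h2 := (hf.increasing h1).trans (f_nsmul hf 2 _)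
    simpa using h2
  have hle' : (f ((u (N + 1) : NNReal) / (N + 1 : ℕ)) : ℝ) ≤
      2 * f ((A ∩ Set.Iio (u (N + 1))).ncard : NNReal) := by exact_mod_cast hle
  linarith

/-- The function `n ↦ n f(g n) / f n`, made monotone and integer valued. -/
noncomputable def gp (g : ℕ → ℕ) (f : NNReal → NNReal) : ℕ → ℕ
  | 0 => 0
  | n + 1 => max (gp g f n) ⌈((n + 1 : ℕ) : NNReal) * f (g (n + 1)) / f ((n + 1 : ℕ) : NNReal)⌉₊

lemma gp_mono (g : ℕ → ℕ) (f : NNReal → NNReal) : Monotone (gp g f) := by
  apply monotone_nat_of_le_succ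
  intro n
  simp [gp]

lemma f_pos {f : NNReal → NNReal} (hf : IsModulus f) {x : NNReal} (hx : 0 < x) : 0 < f x := by
  rw [pos_iff_ne_zero]
  intro h
  exact hx.ne' ((hf.eq_zero_iff x).1 h)

/-- lower bound -/
lemma gp_lower {g : ℕ → ℕ} {f : NNReal → NNReal} (n : ℕ) (hn : 0 < n) :
    (n : NNReal) * f (g n) / f n ≤ gp g f n := by
  obtain ⟨m, rfl⟩ : ∃ m, n = m + 1 := ⟨n - 1, by omega⟩
  refine (Nat.le_ceil _).trans ?_
  exact_mod_cast le_max_right _ _

/-- upper bound -/
lemma gp_upper {g : ℕ → ℕ} (hg : Monotone g) {f : NNReal → NNReal} (hf : IsModulus f) (n : ℕ)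
    (hn : 0 < n) : (gp g f n : NNReal) ≤ 2 * (n * f (g n) / f n) + 1 := by
  have key : ∀ m, m ≤ n → (gp g f m : NNReal) ≤ 2 * (n * f (g n) / f n) + 1 := by
    intro m
    induction m with
    | zero => intro _; simp [gp]
    | succ m ih =>
      intro hm
      have ih' := ih (by omega)
      simp only [gp, Nat.cast_max]
      apply max_le ih'
      refine (Nat.ceil_lt_add_one bot_le).le.trans ?_
      gcongr
      have hmpos : (0 : NNReal) < ((m + 1 : ℕ) : NNReal) := by positivity
      have hnpos : (0 : NNReal) < (n : NNReal) := by exact_mod_cast hn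
      have h1 : f n * ((m + 1 : ℕ) : NNReal) ≤ 2 * n * f ((m + 1 : ℕ) : NNReal) :=
        f_ratio hf hmpos (by exact_mod_cast hm)
      have h2 : f (g (m + 1)) ≤ f (g n) := hf.increasing (by exact_mod_cast hg hm)
      have hfm := f_pos hf hmpos
      have hfn := f_pos hf hnpos
      rw [div_le_iff₀ hfm]
      calc ((m + 1 : ℕ) : NNReal) * f (g (m + 1))
          ≤ ((m + 1 : ℕ) : NNReal) * f (g n) := by gcongr
        _ = (f n * ((m + 1 : ℕ) : NNReal)) * (f (g n) / f n) := by
            field_simp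
        _ ≤ (2 * n * f ((m + 1 : ℕ) : NNReal)) * (f (g n) / f n) := by gcongr
        _ = 2 * (n * f (g n) / f n) * f ((m + 1 : ℕ) : NNReal) := by ring
  exact key n le_rfl

lemma tendsto_f {f : NNReal → NNReal} (hf : IsModulus f) (hub : ¬ BddAbove (Set.range f))
    {g : ℕ → ℕ} (hg : Tendsto g atTop atTop) (C : ℝ) :
    ∀ᶠ n in atTop, C ≤ (f (g n : NNReal) : ℝ) := by
  have h1 : ∃ x, (Real.toNNReal C) < f x := by
    by_contra hcon
    push Not at hcon
    exact hub ⟨Real.toNNReal C, by rintro _ ⟨x, rfl⟩; exact hcon x⟩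
  obtain ⟨x, hx⟩ := h1
  have h2 : ∀ᶠ n in atTop, ⌈x⌉₊ ≤ g n := hg.eventually (eventually_ge_atTop _)
  filter_upwards [h2] with n hn
  have h3 : x ≤ (g n : NNReal) := (Nat.le_ceil x).trans (by exact_mod_cast hn)
  have h4 : (Real.toNNReal C) ≤ f (g n) := hx.le.trans (hf.increasing h3)
  exact (Real.le_coe_toNNReal C).trans (by exact_mod_cast h4)

/-- **Main theorem.** Every Erdős–Ulam ideal of the form `Z_g(f)` with `g ∈ H` and `f` an unbounded
modulus function is a simple density ideal `Z_{g'}` with `g' ∈ H`. -/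
theorem result : ¬ ∃ (h : ℕ → ℝ) (g : ℕ → ℕ) (f : NNReal → NNReal),
    IsEUWeight h ∧ InH g ∧ IsModulus f ∧ ¬ BddAbove (Set.range f) ∧
    EU h = ModularDensity g f ∧ ∀ g' : ℕ → ℕ, InH g' → EU h ≠ SimpleDensity g' := by
  rintro ⟨h, g, f, hh, hg, hf, hub, heq, hne⟩
  have hf1 : 0 < f 1 := f_pos hf one_pos
  have hfgR : ∀ᶠ n in atTop, f 1 ≤ f (g n) := by
    filter_upwards [tendsto_f hf hub hg.unbounded (f 1)] with n hn
    exact_mod_cast hn
  have hfg : ∀ᶠ n in atTop, 0 < f (g n) := by
    filter_upwards [hfgR] with n hn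
    exact lt_of_lt_of_le hf1 hn
  -- `X n = n f(g n) / f n`
  have hlow : ∀ n : ℕ, 0 < n → (n : ℝ) * f (g n) / f n ≤ gp g f n := by
    intro n hn
    have := gp_lower (g := g) (f := f) n hn
    exact_mod_cast this
  have hXlow : ∀ n : ℕ, 0 < n → (f (g n) : ℝ) / f 1 ≤ (n : ℝ) * f (g n) / f n := by
    intro n hn
    have h1 : f (n * 1) ≤ n * f 1 := f_nsmul hf n 1
    rw [mul_one] at h1
    have h1' : (f n : ℝ) ≤ n * f 1 := by exact_mod_cast h1
    have hfn : (0 : ℝ) < f n := by
      exact_mod_cast f_pos hf (x := (n : NNReal)) (by exact_mod_cast hn)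
    have hf1' : (0 : ℝ) < f 1 := by exact_mod_cast hf1
    rw [div_le_div_iff₀ hf1' hfn]
    have hfg0 : (0 : ℝ) ≤ f (g n) := NNReal.coe_nonneg _
    calc (f (g n) : ℝ) * f n ≤ f (g n) * (n * f 1) := by gcongr
      _ = (n : ℝ) * f (g n) * f 1 := by ring
  have hup : ∀ᶠ n : ℕ in atTop, (gp g f n : ℝ) ≤ 3 * ((n : ℝ) * f (g n) / f n) := by
    filter_upwards [hfgR, eventually_gt_atTop 0] with n hn hn0
    have h1 := gp_upper hg.mono hf n hn0
    have h1' : (gp g f n : ℝ) ≤ 2 * ((n : ℝ) * f (g n) / f n) + 1 := by exact_mod_cast h1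
    have h2 := hXlow n hn0
    have h3 : (1 : ℝ) ≤ (f (g n) : ℝ) / f 1 := by
      rw [le_div_iff₀ (by exact_mod_cast hf1), one_mul]
      exact_mod_cast hn
    linarith
  have hInH : InH (gp g f) := by
    refine ⟨gp_mono g f, ?_, ?_⟩
    · rw [tendsto_atTop]
      intro b
      filter_upwards [tendsto_f hf hub hg.unbounded (b * f 1), eventually_gt_atTop 0] with n hn hn0
      have h1 := (hXlow n hn0).trans (hlow n hn0)
      have h2 : (b : ℝ) ≤ (f (g n) : ℝ) / f 1 := by
        rw [le_div_iff₀ (by exact_mod_cast hf1)]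
        exact hn
      exact_mod_cast h2.trans h1
    · intro hlim
      apply hg.ratio
      rw [Metric.tendsto_atTop] at hlim ⊢
      intro ε hε
      obtain ⟨N1, hN1⟩ := hlim (min 1 (ε / 2) / 3) (by positivity)
      obtain ⟨N2, hN2⟩ := eventually_atTop.1 (hup.and hfg)
      refine ⟨max 1 (max N1 N2), fun n hn => ?_⟩
      have hn0 : 0 < n := lt_of_lt_of_le one_pos ((le_max_left _ _).trans hn)
      have h1 := hN1 n ((le_max_left _ _).trans ((le_max_right _ _).trans hn))
      obtain ⟨h2, h3⟩ := hN2 n ((le_max_right _ _).trans ((le_max_right _ _).trans hn))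
      rw [Real.dist_eq, sub_zero, abs_of_nonneg (by positivity)] at h1 ⊢
      have hnR : (0 : ℝ) < n := by exact_mod_cast hn0
      have hfn : (0 : ℝ) < f n := by
        exact_mod_cast f_pos hf (x := (n : NNReal)) (by exact_mod_cast hn0)
      have hfgn : (0 : ℝ) < f (g n) := by exact_mod_cast h3
      have hgp : (0 : ℝ) < gp g f n := lt_of_lt_of_le (by positivity) (hlow n hn0)
      have h4 : (f n : ℝ) / f (g n) < min 1 (ε / 2) := by
        have h5 : (f n : ℝ) / f (g n) ≤ 3 * ((n : ℝ) / gp g f n) := by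
          rw [← mul_div_assoc, div_le_div_iff₀ hfgn hgp]
          calc (f n : ℝ) * gp g f n ≤ f n * (3 * ((n : ℝ) * f (g n) / f n)) := by gcongr
            _ = 3 * (n : ℝ) * f (g n) := by field_simp
        linarith
      have hlt : (f n : ℝ) < f (g n) := by
        have := lt_of_lt_of_le h4 (min_le_left _ _)
        rwa [div_lt_one hfgn] at this
      have hng : n < g n := by
        by_contra hcon
        push Not at hcon
        have : f (g n) ≤ f n := hf.increasing (by exact_mod_cast hcon)
        have : (f (g n) : ℝ) ≤ f n := by exact_mod_cast this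
        linarith
      have h6 : f (g n) * (n : NNReal) ≤ 2 * g n * f n :=
        f_ratio hf (by exact_mod_cast hn0) (by exact_mod_cast hng.le)
      have h6' : (f (g n) : ℝ) * n ≤ 2 * g n * f n := by exact_mod_cast h6
      have hgn : (0 : ℝ) < g n := by exact_mod_cast hn0.trans hng
      have h7 : (n : ℝ) / g n ≤ 2 * (f n / f (g n)) := by
        rw [← mul_div_assoc, div_le_div_iff₀ hgn hfgn]
        linarith
      have h8 := lt_of_lt_of_le h4 (min_le_right _ _)
      linarith
  apply hne (gp g f) hInH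
  rw [heq]
  have hcmp : ∀ (a n : ℕ), a ≤ n → (a : ℝ) * f n ≤ 2 * n * f a := by
    intro a n han
    rcases Nat.eq_zero_or_pos a with ha | ha
    · subst ha
      simp only [Nat.cast_zero, zero_mul]
      positivity
    · have := f_ratio hf (x := (a : NNReal)) (y := (n : NNReal)) (by exact_mod_cast ha)
        (by exact_mod_cast han)
      have h' : (f n : ℝ) * a ≤ 2 * n * f a := by exact_mod_cast this
      linarith
  ext A
  constructor
  · intro hA
    have hA' : Tendsto (fun n : ℕ => (f ((A ∩ Set.Iio n).ncard : NNReal) : ℝ) /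
      (f (g n : NNReal) : ℝ)) atTop (𝓝 0) := hA
    have hA2 := hA'.const_mul 2
    rw [mul_zero] at hA2
    show Tendsto (fun n : ℕ => ((A ∩ Set.Iio n).ncard : ℝ) / (gp g f n : ℝ)) atTop (𝓝 0)
    apply squeeze_zero' (Eventually.of_forall fun n => by positivity) _ hA2
    filter_upwards [hfg, eventually_gt_atTop 0] with n hn hn0
    set a := (A ∩ Set.Iio n).ncard with ha
    have hfgn : (0 : ℝ) < f (g n) := by exact_mod_cast hn
    have hnR : (0 : ℝ) < n := by exact_mod_cast hn0
    have hfn : (0 : ℝ) < f n := by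
      exact_mod_cast f_pos hf (x := (n : NNReal)) (by exact_mod_cast hn0)
    have hXpos : (0 : ℝ) < (n : ℝ) * f (g n) / f n := by positivity
    calc (a : ℝ) / gp g f n ≤ a / ((n : ℝ) * f (g n) / f n) := by
          gcongr
          exact hlow n hn0
      _ = (a : ℝ) * f n / (n * f (g n)) := by field_simp
      _ ≤ 2 * n * f a / (n * f (g n)) :=
          div_le_div_of_nonneg_right (hcmp a n (ncard_le A n)) (by positivity)
      _ = 2 * (f a / f (g n)) := by field_simp
  · intro hA
    have hA' : Tendsto (fun n : ℕ => ((A ∩ Set.Iio n).ncard : ℝ) / (gp g f n : ℝ))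
      atTop (𝓝 0) := hA
    show Tendsto (fun n : ℕ => (f ((A ∩ Set.Iio n).ncard : NNReal) : ℝ) /
      (f (g n : NNReal) : ℝ)) atTop (𝓝 0)
    rw [Metric.tendsto_atTop]
    intro δ hδ
    obtain ⟨K, hK, hKev⟩ := key hh hf hfg heq.subset (δ / 2) (by positivity)
    have hKR : (0 : ℝ) < K := by exact_mod_cast hK
    have hev := hA'.eventually (gt_mem_nhds (show (0 : ℝ) < δ / (6 * K + 1) by positivity))
    obtain ⟨N, hN⟩ := eventually_atTop.1
      (hKev.and (hev.and (hup.and (hfg.and (eventually_gt_atTop 0)))))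
    refine ⟨N, fun n hn => ?_⟩
    obtain ⟨h1, h2, h3, h4, hn0⟩ := hN n hn
    rw [Real.dist_eq, sub_zero, abs_of_nonneg (by positivity)]
    set a := (A ∩ Set.Iio n).ncard with ha
    have han : a ≤ n := ncard_le A n
    have hfgn : (0 : ℝ) < f (g n) := by exact_mod_cast h4
    have hnR : (0 : ℝ) < n := by exact_mod_cast hn0
    have hfn : (0 : ℝ) < f n := by
      exact_mod_cast f_pos hf (x := (n : NNReal)) (by exact_mod_cast hn0)
    have hgp : (0 : ℝ) < gp g f n := lt_of_lt_of_le (by positivity) (hlow n hn0)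
    rw [div_lt_iff₀ hfgn]
    rcases le_total ((a : NNReal)) ((n : NNReal) / K) with hc | hc
    · have h5 : f a ≤ f ((n : NNReal) / K) := hf.increasing hc
      have h5' : (f a : ℝ) ≤ f ((n : NNReal) / K) := by exact_mod_cast h5
      have : 0 < δ * f (g n) := by positivity
      linarith
    · have hc' : (n : ℝ) ≤ a * K := by
        rw [div_le_iff₀ (by exact_mod_cast hK)] at hc
        exact_mod_cast hc
      have h5 : (f a : ℝ) ≤ f n := by
        have := hf.increasing (show (a : NNReal) ≤ n by exact_mod_cast han)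
        exact_mod_cast this
      -- f n ≤ 3 K f(g n) (a / g')
      have h6 : (f n : ℝ) ≤ 3 * K * f (g n) * (a / gp g f n) := by
        have h7 : (f n : ℝ) * gp g f n ≤ 3 * (n * f (g n)) := by
          calc (f n : ℝ) * gp g f n ≤ f n * (3 * ((n : ℝ) * f (g n) / f n)) := by gcongr
            _ = 3 * (n * f (g n)) := by field_simp
        rw [← mul_div_assoc, le_div_iff₀ hgp]
        calc (f n : ℝ) * gp g f n ≤ 3 * (n * f (g n)) := h7
          _ ≤ 3 * ((a * K) * f (g n)) := by gcongr
          _ = 3 * K * f (g n) * a := by ring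
      calc (f a : ℝ) ≤ f n := h5
        _ ≤ 3 * K * f (g n) * (a / gp g f n) := h6
        _ ≤ 3 * K * f (g n) * (δ / (6 * K + 1)) := by gcongr
        _ = δ * f (g n) * (3 * K / (6 * K + 1)) := by ring
        _ < δ * f (g n) * 1 := by
            gcongr
            rw [div_lt_one (by positivity)]
            linarith
        _ = δ * f (g n) := by ring

end Pool.Agent.Results.MP_54d8ad_lc.EUModular
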